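import Pool.Agent.helper80.EF.S69D
import Pool.Agent.helper82.EF.GF
import Pool.Agent.helper15.EF.CO

/-! # Project EF, module S69 -/

namespace Pool.Agent.helper88.EF

open Finset Pool.Agent.helper76.LP Pool.Agent.helper88.OF

theorem S69_main (m : ℕ) [NeZero m] (hD : 69 ∣ m) (c0 : ZMod m → ℤ) (hT : TateF (anti c0))
    (hI : Inv (anti c0)) (s : ZMod m → ℚ) (hs : Ext m 69 23 S69_chi s) (h2 : ∀ x, |s x| ≤ 2)
    (c' : ℤ) (hc : ∑ x, (anti c0 x : ℚ) * s x = 22 * c')
    (hcond : ∀ c : ZMod m → ℤ, TateF (anti c) → (∀ x, addOrderOf x ≠ 69 → anti c x = 0) →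
      MDv (Gam 23) [23] (fun y => Vs S69_d23 (fun z => anti c (emb 69 m (z : ZMod 69))) y -
        Vs S69_d23 (fun z => anti c (emb 69 m (z : ZMod 69)))
          (ZMod.unitOfCoprime 3 (by norm_num : Nat.Coprime 3 23) * y))) : c' = 0 := by
  classical
  by_contra hne
  obtain ⟨hI1, hI2⟩ := hI
  have s0 : ∀ x, addOrderOf x ∣ 60 → s x = 0 := by
    intro x hx
    by_contra h
    exact absurd ((hs.supp x h).1.trans hx) (by norm_num)
  have s138 : ∀ x, ∃ e : ℤ, (e = 1 ∨ e = -1) ∧ (addOrderOf x = 138 → s x = 2 * e) := by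
    intro x
    by_cases h : addOrderOf x = 138
    · obtain ⟨e, h1, h2⟩ := S69_val138 m hD s hs x h
      exact ⟨e, h1, fun _ => h2⟩
    · exact ⟨1, Or.inl rfl, fun h' => absurd h' h⟩
  choose e he1 he2 using s138
  have s1 : ∀ x, addOrderOf x ≠ 138 → |s x| ≤ 1 := fun x hx =>
    S69_bound m S69_chi (fun z => (S69_chi_abs z).le) s hs h2 x hx
  set M : ℤ := ∑ x, (if addOrderOf x = 138 then |anti c0 x| else 0) with hMd
  set G : ZMod m → ℤ := fun x => if addOrderOf x ∣ 60 then 0 else
    if addOrderOf x = 138 then 0 else |anti c0 x| with hG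
  have hG0 : ∀ x, 0 ≤ G x := by
    intro x; rw [hG]; simp only; split_ifs
    · exact le_rfl
    · exact le_rfl
    · exact abs_nonneg _
  set M' : ℤ := ∑ x, G x with hM'd
  set S : ℤ := ∑ x, (if addOrderOf x = 138 then anti c0 x * e x else 0) with hSd
  set R : ℚ := ∑ x, (if addOrderOf x ∣ 60 then 0 else
    if addOrderOf x = 138 then 0 else (anti c0 x : ℚ) * s x) with hRd
  have hM0 : 0 ≤ M := Finset.sum_nonneg fun x _ => by
    split_ifs
    · exact abs_nonneg _
    · exact le_rfl
  have hM'0 : 0 ≤ M' := Finset.sum_nonneg fun x _ => hG0 x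
  have hNM : M + M' = ∑ x, (if addOrderOf x ∣ 60 then 0 else |anti c0 x|) := by
    rw [hMd, hM'd, ← Finset.sum_add_distrib]
    refine Finset.sum_congr rfl fun x _ => ?_
    rw [hG]
    simp only
    by_cases h : addOrderOf x = 138
    · rw [if_pos h, if_pos h, if_neg (by rw [h]; norm_num), if_neg (by rw [h]; norm_num)]
      ring
    · rw [if_neg h, if_neg h]
      split_ifs <;> ring
  have hSR : ∑ x, (anti c0 x : ℚ) * s x = 2 * (S : ℚ) + R := by
    rw [hSd, hRd]
    push_cast
    rw [Finset.mul_sum, ← Finset.sum_add_distrib]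
    refine Finset.sum_congr rfl fun x _ => ?_
    by_cases h : addOrderOf x = 138
    · rw [if_pos h, if_pos h, if_neg (by rw [h]; norm_num), he2 x h]
      ring
    · rw [if_neg h, if_neg h]
      split_ifs with h3
      · rw [s0 x h3]; ring
      · ring
  have hR : |R| ≤ (M' : ℚ) := by
    rw [hRd, hM'd]
    refine (Finset.abs_sum_le_sum_abs _ _).trans ?_
    push_cast
    refine Finset.sum_le_sum fun x _ => ?_
    rw [hG]
    simp only
    split_ifs with h3 h4
    · simp
    · simp
    · rw [abs_mul, Int.cast_abs]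
      exact mul_le_of_le_one_right (abs_nonneg _) (s1 x h4)
  have hSM : |S| ≤ M := by
    rw [hSd, hMd]
    refine (Finset.abs_sum_le_sum_abs _ _).trans (Finset.sum_le_sum fun x _ => ?_)
    split_ifs with h3
    · rw [abs_mul]
      rcases he1 x with h | h <;> rw [h] <;> simp
    · simp
  -- parities
  have hz : ∑ x, (if addOrderOf x = 138 then anti c0 x else 0) = 0 := by
    have h1 : ∑ x, (if addOrderOf x = 138 then anti c0 x else 0) =
        ∑ x : ZMod m, (if addOrderOf (-x) = 138 then anti c0 (-x) else 0) :=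
      (Equiv.sum_comp (Equiv.neg (ZMod m))
        (fun x => if addOrderOf x = 138 then anti c0 x else 0)).symm
    have h2 : ∑ x : ZMod m, (if addOrderOf (-x) = 138 then anti c0 (-x) else 0) =
        - ∑ x, (if addOrderOf x = 138 then anti c0 x else 0) := by
      rw [← Finset.sum_neg_distrib]
      refine Finset.sum_congr rfl fun x _ => ?_
      rw [addOrderOf_neg, anti_odd]
      split_ifs <;> simp
    rw [h2] at h1
    linarith
  have hMe : Even M := by
    have h1 : M = ∑ x, ((if addOrderOf x = 138 then |anti c0 x| else 0) -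
        (if addOrderOf x = 138 then anti c0 x else 0)) := by
      rw [Finset.sum_sub_distrib, hz, sub_zero]
    rw [h1]
    refine Finset.even_sum _ fun x _ => ?_
    split_ifs
    · rcases abs_cases (anti c0 x) with ⟨h3, -⟩ | ⟨h3, -⟩
      · rw [h3, sub_self]; exact Even.zero
      · rw [h3]; exact ⟨-anti c0 x, by ring⟩
    · simp
  have hSe : Even S := by
    have h1 : S = ∑ x, ((if addOrderOf x = 138 then anti c0 x * e x else 0) -
        (if addOrderOf x = 138 then anti c0 x else 0)) := by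
      rw [Finset.sum_sub_distrib, hz, sub_zero]
    rw [h1]
    refine Finset.even_sum _ fun x _ => ?_
    split_ifs
    · rcases he1 x with h | h
      · rw [h, mul_one, sub_self]; exact Even.zero
      · rw [h]; exact ⟨-anti c0 x, by ring⟩
    · simp
  -- the integer inequality
  have hRi : R = ((22 * c' - 2 * S : ℤ) : ℚ) := by
    rw [hSR] at hc
    push_cast
    linarith
  have hin : |22 * c' - 2 * S| ≤ M' := by
    rw [hRi, ← Int.cast_abs] at hR
    exact_mod_cast hR
  have hN : M + M' ≤ 12 := by rw [hNM]; exact hI1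
  have hab1 := abs_le.1 hin
  have hab2 := abs_le.1 hSM
  have hc1 : c' = 1 ∨ c' = -1 := by omega
  have hM10 : M = 10 ∨ M = 12 := by
    obtain ⟨k, hk⟩ := hMe
    omega
  rcases hM10 with hM10 | hM12
  · have hM2 : M' = 2 := by omega
    have hR0 : R ≠ 0 := by
      rw [hRi]
      have : 22 * c' - 2 * S ≠ 0 := by omega
      exact_mod_cast this
    obtain ⟨x6, -, hx6⟩ := Finset.exists_ne_zero_of_sum_ne_zero hR0
    have hx60 : ¬ addOrderOf x6 ∣ 60 := by
      intro h; rw [if_pos h] at hx6; exact hx6 rfl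
    rw [if_neg hx60] at hx6
    have hx138 : addOrderOf x6 ≠ 138 := by
      intro h; rw [if_pos h] at hx6; exact hx6 rfl
    rw [if_neg hx138] at hx6
    have hF6 : anti c0 x6 ≠ 0 := by
      intro h; rw [h, Int.cast_zero, zero_mul] at hx6; exact hx6 rfl
    have hs6 : s x6 ≠ 0 := by
      intro h; rw [h, mul_zero] at hx6; exact hx6 rfl
    have hneg : -x6 ≠ x6 := by
      intro h
      have h3 := anti_odd c0 x6
      rw [h] at h3
      apply hF6; linarith
    have hG6 : G x6 = |anti c0 x6| := by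
      rw [hG]; simp only; rw [if_neg hx60, if_neg hx138]
    have hG6' : G (-x6) = |anti c0 x6| := by
      rw [hG]; simp only
      rw [addOrderOf_neg, if_neg hx60, if_neg hx138, anti_odd, abs_neg]
    have h1F := Int.one_le_abs hF6
    have hpair : G x6 + G (-x6) ≤ 2 := by
      rw [← hM2, hM'd]
      have h3 : ∑ x ∈ ({x6, -x6} : Finset (ZMod m)), G x = G x6 + G (-x6) :=
        Finset.sum_pair hneg.symm
      rw [← h3]
      exact Finset.sum_le_sum_of_subset_of_nonneg (Finset.subset_univ _) fun x _ _ => hG0 x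
    have hF1 : |anti c0 x6| = 1 := by
      rw [hG6, hG6'] at hpair; omega
    have hGy : ∀ y, y ≠ x6 → y ≠ -x6 → G y = 0 := by
      intro y hy1 hy2
      have h3 : ∑ x ∈ ({y, x6, -x6} : Finset (ZMod m)), G x = G y + (G x6 + G (-x6)) := by
        rw [Finset.sum_insert, Finset.sum_pair hneg.symm]
        simp only [Finset.mem_insert, Finset.mem_singleton, not_or]
        exact ⟨hy1, hy2⟩
      have h4 : ∑ x ∈ ({y, x6, -x6} : Finset (ZMod m)), G x ≤ M' :=
        Finset.sum_le_sum_of_subset_of_nonneg (Finset.subset_univ _) fun x _ _ => hG0 x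
      rw [h3, hG6, hG6', hF1, hM2] at h4
      have := hG0 y
      omega
    have h60 := hI2 (by rw [← hNM]; omega)
    have hsup : ∀ x, anti c0 x ≠ 0 → addOrderOf x = 138 ∨ x = x6 ∨ x = -x6 := by
      intro x hx
      by_contra hcon
      push Not at hcon
      obtain ⟨h3, h4, h5⟩ := hcon
      have h6 := hGy x h4 h5
      rw [hG] at h6
      simp only at h6
      by_cases h7 : addOrderOf x ∣ 60
      · exact hx (h60 x h7)
      · rw [if_neg h7, if_neg h3] at h6
        exact hx (abs_eq_zero.1 h6)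
    have hord := S69_ord m c0 hT x6 hF6 hsup (hs.supp x6 hs6).1 (hs.supp x6 hs6).2 hx138
    have h138 : 138 ∣ m := by
      have h1 : M ≠ 0 := by omega
      obtain ⟨x, -, hx⟩ := Finset.exists_ne_zero_of_sum_ne_zero h1
      by_cases h2 : addOrderOf x = 138
      · rw [← h2]; exact addOrderOf_dvd' x
      · rw [if_neg h2] at hx; exact absurd rfl hx
    exact S69_final m h138 c0 hT x6 hord hF1 hsup hM10 s hs c' hc1 hc hcond
  · obtain ⟨k, hk⟩ := hSe
    omega

theorem s69 (m : ℕ) [NeZero m] (hD : 69 ∣ m) (c0 c : ZMod m → ℤ) (hT : TateF (anti c0))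
    (hI : Inv (anti c0)) (hQ : QEq 23 c0 c)
    (hmax : ∀ x, anti c x ≠ 0 → 23 ∣ addOrderOf x → addOrderOf x ≤ 69) :
    MDv (Gam 69) [3] (fun z => anti c (emb 69 m (z : ZMod 69))) := by
  have hmax' : ∀ x, 69 ∣ addOrderOf x → addOrderOf x ≠ 69 → anti c x = 0 := by
    intro x h1 h2
    by_contra hne
    have h3 := hmax x hne (S69_d23.trans h1)
    have h4 := Nat.le_of_dvd (addOrderOf_pos x) h1
    omega
  obtain ⟨s, hs, h2⟩ := gf m 69 23 hD (by norm_num) S69_d23 S69_chi S69_tst 2 (S69_bd _)
  have h2' : ∀ x, |s x| ≤ 2 := by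
    intro x
    have := h2 x
    push_cast at this
    exact this
  obtain ⟨-, hT', -, hfun⟩ := hQ
  have hM1 : MDv (Gam 69) [23, 3] (fun z => anti c (emb 69 m (z : ZMod 69))) := by
    refine mdiff m (anti c) (anti_odd c) (hT' hT) 69 hD hmax' [23, 3] ?_
    intro p hp
    rw [S69_primeFactors] at hp
    simp only [Finset.mem_insert, Finset.mem_singleton] at hp
    rcases hp with h | h <;> rw [h] <;> simp
  have hdel := S69_delta _ hM1
  generalize hc' : anti c (emb 69 m (((1 : (ZMod 69)ˣ)) : ZMod 69)) -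
    anti c (emb 69 m (S69_v : ZMod 69)) = c' at hdel
  have hsum := S69_sum_chi _ _ hdel
  have hf := S69_func m hD c hmax' s hs
  rw [hsum, hfun s hs.dist] at hf
  have hcond : ∀ c : ZMod m → ℤ, TateF (anti c) → (∀ x, addOrderOf x ≠ 69 → anti c x = 0) →
      MDv (Gam 23) [23] (fun y => Vs S69_d23 (fun z => anti c (emb 69 m (z : ZMod 69))) y -
        Vs S69_d23 (fun z => anti c (emb 69 m (z : ZMod 69)))
          (ZMod.unitOfCoprime 3 (by norm_num : Nat.Coprime 3 23) * y)) := by
    intro c hc1 hc2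
    exact cond m 3 23 Nat.prime_three le_rfl (by norm_num) hD c hc1 (fun x _ h => hc2 x h) [23]
      (by simp) (by rw [Nat.Prime.primeFactors (by norm_num)]; rfl)
  have h0 := S69_main m hD c0 hT hI s hs h2' c' (by rw [← hf]; push_cast; ring) hcond
  refine S69_goal _ fun z => ?_
  rw [hdel, h0, zero_mul]

end Pool.Agent.helper88.EF
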