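import Pool.Agent.helper88.EF.Defs
import Pool.Agent.helper76.LP.Main
import Pool.Agent.helper97.OF.MV
import Pool.Agent.helper48.OF.Gen

/-! # Project EF, module S69: preparations -/

namespace Pool.Agent.helper88.EF

open Finset Pool.Agent.helper76.LP

/-! ### the level 69 -/

lemma S69_d3 : (3 : ℕ) ∣ 69 := ⟨23, rfl⟩

lemma S69_d23 : (23 : ℕ) ∣ 69 := ⟨3, rfl⟩

lemma S69_primeFactors : Nat.primeFactors 69 = {3, 23} := by
  rw [show (69 : ℕ) = 3 * 23 by norm_num, Nat.primeFactors_mul (by norm_num) (by norm_num),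
    Nat.Prime.primeFactors (by norm_num), Nat.Prime.primeFactors (by norm_num)]
  rfl

/-- the quadratic character modulo 3 on the units modulo 69 -/
def S69_chi (z : (ZMod 69)ˣ) : ℤ := if ZMod.unitsMap S69_d3 z = 1 then 1 else -1

lemma S69_chi_cases (z : (ZMod 69)ˣ) : S69_chi z = 1 ∨ S69_chi z = -1 := by
  unfold S69_chi; split_ifs <;> simp

lemma S69_chi_sq (z : (ZMod 69)ˣ) : S69_chi z * S69_chi z = 1 := by
  rcases S69_chi_cases z with h | h <;> rw [h] <;> norm_num

lemma S69_chi_abs (z : (ZMod 69)ˣ) : |S69_chi z| = 1 := by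
  rcases S69_chi_cases z with h | h <;> rw [h] <;> norm_num

/-- the unit 47, `1` modulo 23 and `-1` modulo 3 -/
def S69_v : (ZMod 69)ˣ := ⟨47, 47, by decide, by decide⟩

/-- the unit 2 modulo 69 -/
def S69_two : (ZMod 69)ˣ := ⟨2, 35, by decide, by decide⟩

lemma S69_u3 (u : (ZMod 3)ˣ) : u = 1 ∨ u = -1 := by
  revert u; decide

lemma S69_u3_ne : (1 : (ZMod 3)ˣ) ≠ -1 := by decide

lemma S69_um3_v : ZMod.unitsMap S69_d3 S69_v = -1 := by
  apply Units.ext; rw [ZMod.unitsMap_def]; decide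

lemma S69_um23_v : ZMod.unitsMap S69_d23 S69_v = 1 := by
  apply Units.ext; rw [ZMod.unitsMap_def]; decide

lemma S69_um3_two : ZMod.unitsMap S69_d3 S69_two = -1 := by
  apply Units.ext; rw [ZMod.unitsMap_def]; decide

lemma S69_chi_mul_neg (u z : (ZMod 69)ˣ) (hu : ZMod.unitsMap S69_d3 u = -1) :
    S69_chi (u * z) = - S69_chi z := by
  unfold S69_chi
  rw [map_mul, hu]
  rcases S69_u3 (ZMod.unitsMap S69_d3 z) with h | h
  · rw [h]; decide
  · rw [h]; decide

lemma S69_chi_v (z : (ZMod 69)ˣ) : S69_chi (S69_v * z) = - S69_chi z :=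
  S69_chi_mul_neg _ z S69_um3_v

lemma S69_chi_two (z : (ZMod 69)ˣ) : S69_chi (S69_two * z) = - S69_chi z :=
  S69_chi_mul_neg _ z S69_um3_two

lemma S69_v_sq : S69_v * S69_v = 1 := by decide

lemma S69_mem3 (w : (ZMod 69)ˣ) : w ∈ Gam 69 3 ↔ ZMod.unitsMap S69_d23 w = 1 := by
  have h := GA_mem (d := 69) (p := 3) (e := 23) rfl (by norm_num) w
  exact h

lemma S69_mem23 (w : (ZMod 69)ˣ) : w ∈ Gam 69 23 ↔ ZMod.unitsMap S69_d3 w = 1 := by
  have h := GA_mem (d := 69) (p := 23) (e := 3) rfl (by norm_num) w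
  exact h

lemma S69_ker (w : (ZMod 69)ˣ) (hw : ZMod.unitsMap S69_d23 w = 1) : w = 1 ∨ w = S69_v := by
  have h1 : ZMod.castHom S69_d23 (ZMod 23) (w : ZMod 69) = 1 := by
    have h2 := congrArg Units.val hw
    rw [ZMod.unitsMap_def] at h2
    simpa using h2
  have h3 : ∀ x y : ZMod 69, x * y = 1 → ZMod.castHom S69_d23 (ZMod 23) x = 1 →
      x = 1 ∨ x = 47 := by
    have h4 : ∀ x : ZMod 69, ZMod.castHom S69_d23 (ZMod 23) x = 1 → x = 1 ∨ x = 47 ∨ x = 24 := by
      decide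
    have h5 : ∀ y : ZMod 69, (24 : ZMod 69) * y ≠ 1 := by decide
    intro x y hxy hx
    rcases h4 x hx with h | h | h
    · exact Or.inl h
    · exact Or.inr h
    · exact absurd hxy (by rw [h]; exact h5 y)
  rcases h3 w (w⁻¹ : (ZMod 69)ˣ) (by rw [← Units.val_mul, mul_inv_cancel]; rfl) h1 with h | h
  · exact Or.inl (Units.ext h)
  · exact Or.inr (Units.ext h)

lemma S69_chi_eq_one (z : (ZMod 69)ˣ) (h : S69_chi z = 1) : z ∈ Gam 69 23 := by
  rw [S69_mem23]
  unfold S69_chi at h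
  by_contra hc
  rw [if_neg hc] at h
  norm_num at h

/-- the difference in the direction 3 -/
theorem S69_delta (f : (ZMod 69)ˣ → ℤ) (hf : MDv (Gam 69) [23, 3] f) (z : (ZMod 69)ˣ) :
    f z - f (S69_v * z) = (f 1 - f S69_v) * S69_chi z := by
  have hv : S69_v ∈ Gam 69 3 := (S69_mem3 _).2 S69_um23_v
  have h1 : ∀ u ∈ Gam 69 23, ∀ x, f (u * (S69_v * x)) - f (S69_v * x) - (f (u * x) - f x) = 0 :=
    fun u hu x => hf u hu S69_v hv x
  have h2 : ∀ u : (ZMod 69)ˣ, S69_chi u = 1 → f u - f (S69_v * u) = f 1 - f S69_v := by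
    intro u hu
    have h3 := h1 u (S69_chi_eq_one u hu) 1
    rw [mul_one, mul_one] at h3
    rw [mul_comm S69_v u]
    linarith
  rcases S69_chi_cases z with h | h
  · rw [h, mul_one]; exact h2 z h
  · have h3 := h2 (S69_v * z) (by rw [S69_chi_v, h]; norm_num)
    rw [← mul_assoc, S69_v_sq, one_mul] at h3
    rw [h]; linarith

theorem S69_sum_chi (f : (ZMod 69)ˣ → ℤ) (c : ℤ)
    (hf : ∀ z, f z - f (S69_v * z) = c * S69_chi z) : ∑ z, f z * S69_chi z = 22 * c := by
  have h1 : ∑ z, f z * S69_chi z = ∑ z, f (S69_v * z) * S69_chi (S69_v * z) :=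
    (Equiv.sum_comp (Equiv.mulLeft S69_v) (fun z => f z * S69_chi z)).symm
  have h2 : 2 * ∑ z, f z * S69_chi z = ∑ z : (ZMod 69)ˣ, c := by
    rw [two_mul]
    nth_rw 2 [h1]
    rw [← Finset.sum_add_distrib]
    refine Finset.sum_congr rfl fun z _ => ?_
    rw [S69_chi_v]
    have h3 := hf z
    have h4 := S69_chi_sq z
    calc f z * S69_chi z + f (S69_v * z) * - S69_chi z
        = (f z - f (S69_v * z)) * S69_chi z := by ring
      _ = c * (S69_chi z * S69_chi z) := by rw [h3]; ring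
      _ = c := by rw [h4, mul_one]
  rw [Finset.sum_const, Finset.card_univ, ZMod.card_units_eq_totient] at h2
  have h5 : Nat.totient 69 = 44 := by decide
  rw [h5] at h2
  simp only [nsmul_eq_mul] at h2
  push_cast at h2
  linarith

theorem S69_goal (f : (ZMod 69)ˣ → ℤ) (hf : ∀ z, f z - f (S69_v * z) = 0) :
    MDv (Gam 69) [3] f := by
  intro u hu x
  show f (u * x) - f x = 0
  rcases S69_ker u ((S69_mem3 u).1 hu) with h | h
  · rw [h, one_mul, sub_self]
  · rw [h]; have := hf x; linarith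

/-- `chi` is a test function -/
theorem S69_tst : Tst 69 23 S69_chi := by
  intro p hp hne z
  have hp3 : p = 3 := by
    rw [S69_primeFactors] at hp
    simp only [Finset.mem_insert, Finset.mem_singleton] at hp
    rcases hp with h | h
    · exact h
    · exact absurd h hne
  subst hp3
  classical
  unfold gsum
  have hv : S69_v ∈ Gam 69 3 := (S69_mem3 _).2 S69_um23_v
  have h1 : ∑ w : (ZMod 69)ˣ, (if w ∈ Gam 69 3 then S69_chi (w * z) else 0) =
      ∑ w : (ZMod 69)ˣ, (if S69_v * w ∈ Gam 69 3 then S69_chi (S69_v * w * z) else 0) :=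
    (Equiv.sum_comp (Equiv.mulLeft S69_v)
      (fun w => if w ∈ Gam 69 3 then S69_chi (w * z) else 0)).symm
  have h2 : ∑ w : (ZMod 69)ˣ, (if S69_v * w ∈ Gam 69 3 then S69_chi (S69_v * w * z) else 0) =
      - ∑ w : (ZMod 69)ˣ, (if w ∈ Gam 69 3 then S69_chi (w * z) else 0) := by
    rw [← Finset.sum_neg_distrib]
    refine Finset.sum_congr rfl fun w _ => ?_
    by_cases h : w ∈ Gam 69 3
    · rw [if_pos h, if_pos (Subgroup.mul_mem _ hv h), mul_assoc, S69_chi_v]
    · rw [if_neg h, if_neg (fun h' => h ((Subgroup.mul_mem_cancel_left _ hv).1 h')), neg_zero]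
  have h3 := h1.trans h2
  have h4 : ∑ w : (ZMod 69)ˣ, (if w ∈ Gam 69 3 then S69_chi (w * z) else 0) = 0 := by linarith
  convert h4

theorem S69_bd (ev : Prop) : Bd 69 ev S69_chi 2 := by
  refine ⟨fun z => ?_, fun _ _ z z' _ => ?_⟩
  · rw [S69_chi_abs]; norm_num
  · rcases S69_chi_cases z with h | h <;> rcases S69_chi_cases z' with h' | h' <;>
      rw [h, h'] <;> norm_num

end Pool.Agent.helper88.EF
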