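import Pool.Agent.helper80.EF.S69A

/-! # Project EF, module S69: the test function -/

namespace Pool.Agent.helper88.EF

open Finset Pool.Agent.helper76.LP

/-- a point of order prime to `l` with the same multiple `l x` -/
lemma S69_exists_prime_part {m : ℕ} [NeZero m] (l : ℕ) (hl : l.Prime) (x : ZMod m)
    (h1 : l ∣ addOrderOf x) (h2 : ¬ l * l ∣ addOrderOf x) :
    ∃ x' : ZMod m, (l : ZMod m) * x' = (l : ZMod m) * x ∧ ¬ l ∣ addOrderOf x' := by
  obtain ⟨k, hk⟩ := h1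
  have hn : 0 < addOrderOf x := addOrderOf_pos x
  have hlk : ¬ l ∣ k := by
    rintro ⟨j, rfl⟩
    exact h2 ⟨j, by rw [hk, mul_assoc]⟩
  have hcop : Nat.Coprime k l := ((Nat.Prime.coprime_iff_not_dvd hl).2 hlk).symm
  obtain ⟨t, ht1, ht2⟩ := Nat.chineseRemainder hcop 1 0
  have hk0 : 0 < k := Nat.pos_of_ne_zero (by rintro rfl; omega)
  refine ⟨t • x, ?_, ?_⟩
  · rw [← nsmul_eq_mul, ← nsmul_eq_mul, smul_smul]
    have h3 : l * t ≡ l [MOD addOrderOf x] := by
      rw [hk]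
      have := Nat.ModEq.mul_left' l ht1
      rwa [mul_one] at this
    exact (nsmul_eq_nsmul_iff_modEq).2 h3
  · intro h
    have h4 : k • (t • x) = 0 := by
      rw [smul_smul]
      obtain ⟨j, hj⟩ := (Nat.modEq_zero_iff_dvd).1 ht2
      rw [hj, ← mul_assoc, mul_comm k l, ← hk, mul_comm, mul_smul, addOrderOf_nsmul_eq_zero,
        smul_zero]
    have h5 := addOrderOf_dvd_iff_nsmul_eq_zero.2 h4
    exact hlk (h.trans h5)

/-- the bound 1 outside the order 138 -/
theorem S69_bound (m : ℕ) [NeZero m] (ψ : (ZMod 69)ˣ → ℤ) (hψ : ∀ z, |ψ z| ≤ 1)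
    (s : ZMod m → ℚ) (hs : Ext m 69 23 ψ s) (h2 : ∀ x, |s x| ≤ 2) (x : ZMod m)
    (hx : addOrderOf x ≠ 138) : |s x| ≤ 1 := by
  by_cases h0 : s x = 0
  · rw [h0]; norm_num
  obtain ⟨⟨r, hr⟩, h23⟩ := hs.supp x h0
  have hn : 0 < addOrderOf x := addOrderOf_pos x
  have hr0 : r ≠ 0 := by rintro rfl; omega
  -- division by a prime
  have hmul : ∀ p : ℕ, p.Prime → p ≠ 23 → p ∣ r → (p ∣ 69 ∨ p * p ∣ addOrderOf x) →
      |s x| ≤ 1 := by
    intro p hp hp23 hpr hc
    have h3 := hs.mul p hp hp23 x (by rw [hr]; exact Nat.mul_dvd_mul_left 69 hpr) hc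
    rw [h3, abs_div]
    have hp2 : (2 : ℚ) ≤ p := by exact_mod_cast hp.two_le
    have h4 := h2 ((p : ZMod m) * x)
    rw [abs_of_nonneg (by linarith : (0 : ℚ) ≤ p), div_le_one (by linarith)]
    linarith
  rcases Nat.eq_two_pow_or_exists_odd_prime_and_dvd r with ⟨k, hk⟩ | ⟨p, hp, hpr, hodd⟩
  · rcases k with _ | _ | k
    · rw [pow_zero] at hk
      rw [hk, mul_one] at hr
      obtain ⟨z, hz⟩ := exists_emb x hr
      rw [← hz, hs.val z]
      have := hψ z
      rw [← Int.cast_abs]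
      exact_mod_cast this
    · exfalso; apply hx; rw [hr, hk]; norm_num
    · refine hmul 2 Nat.prime_two (by norm_num) ?_ (Or.inr ?_)
      · rw [hk]; exact dvd_pow_self 2 (by omega)
      · rw [hr, hk]
        exact (show 2 * 2 ∣ 2 ^ (k + 1 + 1) from ⟨2 ^ k, by ring⟩).trans (Dvd.intro_left _ rfl)
  · have hp2 : p ≠ 2 := by rintro rfl; exact absurd hodd (by decide)
    by_cases hp3 : p = 3
    · subst hp3
      exact hmul 3 hp (by norm_num) hpr (Or.inl ⟨23, rfl⟩)
    by_cases hp23 : p = 23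
    · subst hp23
      exact absurd (by rw [hr]; exact Nat.mul_dvd_mul_left 69 hpr) h23
    have hp4 : p ≠ 4 := by rintro rfl; exact absurd hp (by norm_num)
    have hp5 : 5 ≤ p := by
      have := hp.two_le
      omega
    by_cases hpp : p * p ∣ addOrderOf x
    · exact hmul p hp hp23 hpr (Or.inr hpp)
    · have hp69 : ¬ p ∣ 69 := by
        intro h
        have h3 : p ∣ 3 * 23 := h
        rcases (Nat.Prime.dvd_mul hp).1 h3 with h4 | h4
        · exact hp3 ((Nat.prime_dvd_prime_iff_eq hp Nat.prime_three).1 h4)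
        · exact hp23 ((Nat.prime_dvd_prime_iff_eq hp (by norm_num)).1 h4)
      have hpx : p ∣ addOrderOf x := by rw [hr]; exact hpr.mul_left 69
      obtain ⟨x', hx1, hx2⟩ := S69_exists_prime_part p hp x hpx hpp
      have h3 := hs.new p hp hp69 x x' hpx hpp hx1 hx2
      have hp5' : (5 : ℚ) ≤ p := by exact_mod_cast hp5
      rw [h3, abs_div, abs_of_nonneg (by linarith : (0 : ℚ) ≤ (p : ℚ) - 1),
        div_le_one (by linarith)]
      have h4 := h2 ((p : ZMod m) * x)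
      have h5 := h2 x'
      have h6 := abs_sub (s ((p : ZMod m) * x)) (s x')
      linarith

/-- values at the points of order 138 -/
theorem S69_val138 (m : ℕ) [NeZero m] (hD : 69 ∣ m)
    (s : ZMod m → ℚ) (hs : Ext m 69 23 S69_chi s) (x : ZMod m)
    (hx : addOrderOf x = 138) : ∃ e : ℤ, (e = 1 ∨ e = -1) ∧ s x = 2 * e := by
  have h2x : addOrderOf ((2 : ℕ) • x) = 69 := by
    rw [addOrderOf_nsmul' x (by norm_num), hx]
    norm_num
  obtain ⟨y, hy⟩ := exists_emb ((2 : ℕ) • x) h2x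
  rw [nsmul_eq_mul] at hy
  have h3 : (S69_two : ZMod 69) * ((S69_two⁻¹ * y : (ZMod 69)ˣ) : ZMod 69) = y := by
    rw [← Units.val_mul, mul_inv_cancel_left]
  have h4 : ((2 : ℕ) : ZMod m) * emb 69 m ((S69_two⁻¹ * y : (ZMod 69)ˣ) : ZMod 69) =
      ((2 : ℕ) : ZMod m) * x := by
    rw [← hy, mul_emb hD, map_natCast]
    congr 1
  have h5 := hs.new 2 Nat.prime_two (by norm_num) x
    (emb 69 m ((S69_two⁻¹ * y : (ZMod 69)ˣ) : ZMod 69)) (by rw [hx]; norm_num)
    (by rw [hx]; norm_num) h4 (by rw [addOrderOf_emb hD]; norm_num)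
  rw [hs.val, ← hy, hs.val] at h5
  have h6 : S69_chi (S69_two⁻¹ * y) = - S69_chi y := by
    have := S69_chi_two (S69_two⁻¹ * y)
    rw [mul_inv_cancel_left] at this
    linarith
  rw [h6] at h5
  refine ⟨S69_chi y, S69_chi_cases y, ?_⟩
  rw [h5]; push_cast; ring

lemma S69_om1 (t : ℕ) (h1 : t % 23 = 3) : ¬ 23 ∣ t := by omega

lemma S69_om2 (n : ℕ) (h2 : 2 ∣ n) (h4 : n % 4 ≠ 2) : 4 ∣ n := by omega

/-- a function with one point in its residue classes modulo 23 -/
theorem S69_cube (m n : ℕ) [NeZero m] [NeZero n] (hn : n ∣ m) (h23 : 23 ∣ n)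
    (h529 : ¬ 23 * 23 ∣ n) (h4 : n % 4 ≠ 2) (F : ZMod m → ℤ) (hodd : ∀ x, F (-x) = - F x)
    (hT : TateF F) (hmax : ∀ x, n ∣ addOrderOf x → addOrderOf x ≠ n → F x = 0)
    (z0 : (ZMod n)ˣ) (h0 : F (emb n m (z0 : ZMod n)) ≠ 0)
    (hs : ∀ y : (ZMod n)ˣ, F (emb n m (y : ZMod n)) ≠ 0 → y = z0 ∨
      ∀ w : ZMod 23, (w = 1 ∨ w = 3) →
        ZMod.castHom h23 (ZMod 23) (y : ZMod n) ≠ w * ZMod.castHom h23 (ZMod 23) (z0 : ZMod n)) :
    False := by
  classical
  obtain ⟨k, hk⟩ := h23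
  have hn0 : 0 < n := Nat.pos_of_ne_zero (NeZero.ne n)
  have hk0 : 0 < k := Nat.pos_of_ne_zero (by rintro rfl; rw [hk] at hn0; exact absurd hn0 (by norm_num))
  have h23k : ¬ 23 ∣ k := by
    rintro ⟨j, rfl⟩
    exact h529 ⟨j, by rw [hk, mul_assoc]⟩
  have h23p : Nat.Prime 23 := by norm_num
  have hcop : Nat.Coprime 23 k := (Nat.Prime.coprime_iff_not_dvd h23p).2 h23k
  -- the unit
  obtain ⟨t, ht1, ht2⟩ := Nat.chineseRemainder hcop 3 1
  have htc : Nat.Coprime t n := by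
    rw [hk]
    apply Nat.Coprime.mul_right
    · have h1 : t % 23 = 3 := ht1
      rw [Nat.coprime_comm, Nat.Prime.coprime_iff_not_dvd h23p]
      exact S69_om1 t h1
    · have h1 := Nat.ModEq.gcd_eq ht2
      rw [Nat.Coprime, h1, Nat.gcd_one_left]
  set v : (ZMod n)ˣ := ZMod.unitOfCoprime t htc with hv
  have h23' : 23 ∣ n := ⟨k, hk⟩
  have hvc : ZMod.castHom h23' (ZMod 23) (v : ZMod n) = 3 := by
    rw [hv, ZMod.coe_unitOfCoprime, map_natCast]
    have h1 := (ZMod.natCast_eq_natCast_iff t 3 23).2 ht1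
    rw [h1]; rfl
  have hvG : v ∈ Gam n 23 := by
    have hk' : NeZero k := ⟨hk0.ne'⟩
    rw [GA_mem (d := n) (p := 23) (e := k) (by rw [hk, mul_comm]) (by norm_num)]
    apply Units.ext
    rw [ZMod.unitsMap_def]
    simp only [Units.coe_map, MonoidHom.coe_coe, Units.val_one]
    rw [hv, ZMod.coe_unitOfCoprime, map_natCast]
    have h1 := (ZMod.natCast_eq_natCast_iff t 1 k).2 ht2
    rw [h1]; simp
  -- the list
  set L' := (n.primeFactors.erase 23).toList with hL'
  have hmem : ∀ p ∈ L', p ∈ n.primeFactors ∧ p ≠ 23 := by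
    intro p hp
    rw [hL', Finset.mem_toList, Finset.mem_erase] at hp
    exact ⟨hp.2, hp.1⟩
  have hdiv : ∀ p ∈ L', p ∣ n ∧ 23 ∣ n / p := by
    intro p hp
    obtain ⟨h1, h2⟩ := hmem p hp
    have hpp := Nat.prime_of_mem_primeFactors h1
    have hpn := Nat.dvd_of_mem_primeFactors h1
    refine ⟨hpn, ?_⟩
    obtain ⟨j, hj⟩ := hpn
    rw [hj, Nat.mul_div_cancel_left _ hpp.pos]
    rw [hj] at h23'
    rcases (Nat.Prime.dvd_mul h23p).1 h23' with h3 | h3
    · exact absurd ((Nat.prime_dvd_prime_iff_eq h23p hpp).1 h3).symm h2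
    · exact h3
  have hM : MDv (Gam n) (23 :: L') (fun z => F (emb n m (z : ZMod n))) := by
    refine mdiff m F hodd hT n hn hmax (23 :: L') ?_
    intro p hp
    by_cases h : p = 23
    · rw [h]; exact List.mem_cons_self
    · refine List.mem_cons_of_mem _ ?_
      rw [hL', Finset.mem_toList, Finset.mem_erase]
      exact ⟨h, hp⟩
  have hM' := hM v hvG
  have hI : Indep (Gam n) L' := indep_Gam n L' (Finset.nodup_toList _) fun p hp => (hmem p hp).1
  have hz0u : IsUnit (ZMod.castHom h23' (ZMod 23) (z0 : ZMod n)) := z0.isUnit.map _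
  -- points of the support
  have hsupp : ∀ w ∈ Pl (Gam n) L',
      F (emb n m ((v * (w * z0) : (ZMod n)ˣ) : ZMod n)) = 0 := by
    intro w hw
    by_contra hc
    have hw1 := Pl_Gam_cast n 23 h23' L' hdiv w hw
    rcases hs _ hc with h1 | h1
    · have h2 := congrArg (fun u : (ZMod n)ˣ => ZMod.castHom h23' (ZMod 23) (u : ZMod n)) h1
      simp only [Units.val_mul, map_mul] at h2
      rw [hw1, hvc, one_mul] at h2
      have h3 : (3 : ZMod 23) * ZMod.castHom h23' (ZMod 23) (z0 : ZMod n) =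
        1 * ZMod.castHom h23' (ZMod 23) (z0 : ZMod n) := by rw [h2, one_mul]
      exact absurd (hz0u.mul_right_cancel h3) (by decide)
    · apply h1 3 (Or.inr rfl)
      rw [Units.val_mul, Units.val_mul, map_mul, map_mul, hw1, hvc, one_mul]
  have hsupp2 : ∀ w ∈ Pl (Gam n) L',
      F (emb n m ((w * z0 : (ZMod n)ˣ) : ZMod n)) ≠ 0 → w * z0 = z0 := by
    intro w hw hc
    have hw1 := Pl_Gam_cast n 23 h23' L' hdiv w hw
    rcases hs _ hc with h1 | h1
    · exact h1
    · exfalso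
      apply h1 1 (Or.inl rfl)
      rw [Units.val_mul, map_mul, hw1]
  have hne : F (emb n m ((v * z0 : (ZMod n)ˣ) : ZMod n)) - F (emb n m (z0 : ZMod n)) ≠ 0 := by
    have h1 := hsupp 1 (Subgroup.one_mem _)
    rw [one_mul] at h1
    rw [h1, zero_sub]
    exact neg_ne_zero.2 h0
  obtain ⟨p, hp, hcard⟩ := min_support (Gam n) L' hI _ hM' z0 hne
  have hp1 := (hmem p hp).1
  have hpp := Nat.prime_of_mem_primeFactors hp1
  have hpn := Nat.dvd_of_mem_primeFactors hp1
  have hc2 : 2 ≤ Nat.card (Gam n p) := by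
    rw [card_Gam n p hpp hpn]
    split_ifs with h
    · exact hpp.two_le
    · have h2 := hpp.two_le
      have h3 : p ≠ 2 := by
        rintro rfl
        apply h
        have : (2 : ℕ) ^ 2 = 4 := by norm_num
        rw [this]
        exact S69_om2 n hpn h4
      exact Nat.le_sub_one_of_lt (lt_of_le_of_ne h2 (Ne.symm h3))
  have hSl : Sl (Gam n) L' (fun x : (ZMod n)ˣ => F (emb n m ((v * x : (ZMod n)ˣ) : ZMod n)) -
      F (emb n m (x : ZMod n))) z0 ≤ 1 := by
    unfold Sl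
    rw [Finite.card_le_one_iff_subsingleton]
    refine ⟨fun a b => ?_⟩
    have key : ∀ a : {x : (ZMod n)ˣ // x * z0⁻¹ ∈ Pl (Gam n) L' ∧
        F (emb n m ((v * x : (ZMod n)ˣ) : ZMod n)) - F (emb n m (x : ZMod n)) ≠ 0},
        (a : (ZMod n)ˣ) = z0 := by
      rintro ⟨x, hx1, hx2⟩
      have h1 := hsupp _ hx1
      have h2 := hsupp2 _ hx1
      rw [inv_mul_cancel_right] at h1 h2
      apply h2
      intro h3
      apply hx2
      rw [h1, h3, sub_zero]
    exact Subtype.ext ((key a).trans (key b).symm)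
  exact absurd (hc2.trans (hcard.trans hSl)) (by norm_num)

end Pool.Agent.helper88.EF
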