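import Pool.Agent.helper80.EF.S69B

/-! # Project EF, module S69: modification in the direction 2, and the order of the last point -/

namespace Pool.Agent.helper88.EF

open Finset Pool.Agent.helper76.LP Pool.Agent.helper88.OF

lemma S69_sum_emb {A : Type*} [AddCommMonoid A] {m : ℕ} [NeZero m] (e : ℕ) [NeZero e]
    (he : e ∣ m) (F : ZMod m → A) :
    ∑ x, (if addOrderOf x = e then F x else 0) = ∑ z : (ZMod e)ˣ, F (emb e m (z : ZMod e)) := by
  classical
  rw [← Finset.sum_filter]
  symm
  refine Finset.sum_bij (fun z _ => emb e m (z : ZMod e)) ?_ ?_ ?_ ?_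
  · intro z _
    rw [Finset.mem_filter]
    exact ⟨Finset.mem_univ _, addOrderOf_emb he z⟩
  · intro z _ w _ h
    exact Units.ext (emb_injective he h)
  · intro x hx
    rw [Finset.mem_filter] at hx
    obtain ⟨z, hz⟩ := exists_emb x hx.2
    exact ⟨z, Finset.mem_univ _, hz⟩
  · intro z _; rfl

/-- the modification in the direction 2 -/
theorem S69_two_move (m : ℕ) [NeZero m] (D e : ℕ) [NeZero D] [NeZero e] (hD : D ∣ m)
    (he : e * 2 = D) (ho : Odd e) (c0 : ZMod m → ℤ) (hT : TateF (anti c0)) :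
    ∃ (c1 : ZMod m → ℤ) (ν : (ZMod e)ˣ → ℤ),
      (∀ z : (ZMod D)ˣ, anti c0 (emb D m (z : ZMod D)) =
        ν (ZMod.unitsMap (Dvd.intro 2 he) z)) ∧
      (∀ y, ν (-y) = - ν y) ∧ TateF (anti c1) ∧
      (∀ z : (ZMod D)ˣ, anti c1 (emb D m (z : ZMod D)) = 0) ∧
      (∀ y : (ZMod e)ˣ, anti c1 (emb e m (y : ZMod e)) = anti c0 (emb e m (y : ZMod e)) +
        (ν y - ν (ZMod.unitOfCoprime 2 (Nat.coprime_two_left.2 ho) * y))) ∧
      (∀ x, addOrderOf x ≠ D → addOrderOf x ≠ e → anti c1 x = anti c0 x) ∧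
      (∑ y, |ν y| = ∑ z : (ZMod D)ˣ, |anti c0 (emb D m (z : ZMod D))|) ∧
      (∀ s : ZMod m → ℚ, (∀ x, ∑ j ∈ range 2, s (x + ((j * (m / 2) : ℕ) : ZMod m)) =
          s (((2 : ℕ) : ZMod m) * x)) →
        ∑ x, (anti c1 x : ℚ) * s x = ∑ x, (anti c0 x : ℚ) * s x) := by
  have hcard : Nat.card (Gam D 2) = 1 := by
    rw [card_Gam D 2 Nat.prime_two (Dvd.intro_left e he), if_neg]
    rw [← he]
    rintro ⟨j, hj⟩
    obtain ⟨i, hi⟩ := ho
    omega
  have hbot : Gam D 2 = ⊥ := Subgroup.card_eq_one.1 hcard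
  have hem : e ∣ m := (Dvd.intro 2 he).trans hD
  obtain ⟨g, ν, h1, h2, h3, h4, h5, -⟩ := move1 m D e 2 hD he Nat.prime_two
    (fun z => anti c0 (emb D m (z : ZMod D)))
    (by
      intro u hu x
      rw [hbot, Subgroup.mem_bot] at hu
      rw [hu, one_mul])
    (by
      intro x
      rw [Units.val_neg, emb_neg hD, anti_odd])
  rw [hcard] at h3
  have hne : D ≠ e := by
    have := Nat.pos_of_ne_zero (NeZero.ne e)
    omega
  have hR : ∀ y : (ZMod e)ˣ, Rop 2 e ν y =
      ν y - ν (ZMod.unitOfCoprime 2 (Nat.coprime_two_left.2 ho) * y) := by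
    intro y
    unfold Rop
    rw [dif_pos (Nat.coprime_two_left.2 ho)]
  have ha : ∀ x, anti (fun x => c0 x - g x) x = anti c0 x -
      (ext D m (fun z => anti c0 (emb D m (z : ZMod D))) x - ext e m (Rop 2 e ν) x) := by
    intro x
    rw [← h4]
    unfold anti; ring
  refine ⟨fun x => c0 x - g x, ν, h1, h2, ?_, ?_, ?_, ?_, ?_, ?_⟩
  · have h6 : anti (fun x => c0 x - g x) = fun x => anti c0 x - anti g x := by
      funext x; unfold anti; ring
    rw [h6]
    exact TB_tateF_sub hT h5
  · intro z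
    rw [ha, ext_emb hD, ext_of_order_ne hem _ _ (by rw [addOrderOf_emb hD]; exact hne)]
    ring
  · intro y
    rw [ha, ext_emb hem, ext_of_order_ne hD _ _ (by rw [addOrderOf_emb hem]; exact hne.symm), hR]
    ring
  · intro x hx hx'
    rw [ha, ext_of_order_ne hD _ _ hx, ext_of_order_ne hem _ _ hx']
    ring
  · rw [Nat.cast_one, mul_one] at h3
    exact h3
  · intro s hs
    have h6 := dist_units m s 2 Nat.prime_two 0 (fun x => by rw [add_zero]; exact hs x) D e hD he ν
    rw [smul_zero, add_zero] at h6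
    have h7 := sum_ext_smul (m := m) (fun z : (ZMod D)ˣ => anti c0 (emb D m (z : ZMod D))) s
    have h8 := sum_ext_smul (m := m) (Rop 2 e ν) s
    rw [← h8] at h6
    have h9 : ∑ z : (ZMod D)ˣ, ν (ZMod.unitsMap (Dvd.intro 2 he) z) • s (emb D m (z : ZMod D)) =
        ∑ z : (ZMod D)ˣ, anti c0 (emb D m (z : ZMod D)) • s (emb D m (z : ZMod D)) :=
      Finset.sum_congr rfl fun z _ => by rw [h1]
    rw [h9, ← h7] at h6
    have h10 : ∀ x, (anti (fun x => c0 x - g x) x : ℚ) * s x = (anti c0 x : ℚ) * s x -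
        (ext D m (fun z => anti c0 (emb D m (z : ZMod D))) x • s x -
          ext e m (Rop 2 e ν) x • s x) := by
      intro x
      rw [ha, zsmul_eq_mul, zsmul_eq_mul]
      push_cast
      ring
    rw [Finset.sum_congr rfl fun x _ => h10 x, Finset.sum_sub_distrib, Finset.sum_sub_distrib, h6]
    ring

lemma S69_neg_ne (u w : ZMod 23) (hu : IsUnit u) (hw : w = 1 ∨ w = 3) : -u ≠ w * u := by
  intro h
  rw [← neg_one_mul] at h
  have := hu.mul_right_cancel h
  rcases hw with h1 | h1 <;> rw [h1] at this <;> exact absurd this (by decide)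

lemma S69_two_ne (u r w : ZMod 23) (hu : IsUnit u) (hw : w = 1 ∨ w = 3) (hr : 2 * r = u ∨
    2 * r = -u) : r ≠ w * u := by
  rintro rfl
  rcases hr with h | h
  · have h1 : (2 * w) * u = 1 * u := by rw [one_mul, mul_assoc]; exact h
    have := hu.mul_right_cancel h1
    rcases hw with h1 | h1 <;> rw [h1] at this <;> exact absurd this (by decide)
  · have h1 : (2 * w) * u = (-1) * u := by rw [neg_one_mul, mul_assoc]; exact h
    have := hu.mul_right_cancel h1
    rcases hw with h1 | h1 <;> rw [h1] at this <;> exact absurd this (by decide)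

/-- the order of the last point -/
theorem S69_ord (m : ℕ) [NeZero m] (c0 : ZMod m → ℤ) (hT : TateF (anti c0)) (x6 : ZMod m)
    (h6 : anti c0 x6 ≠ 0)
    (hsup : ∀ x, anti c0 x ≠ 0 → addOrderOf x = 138 ∨ x = x6 ∨ x = -x6)
    (h69 : 69 ∣ addOrderOf x6) (h23 : ¬ 69 * 23 ∣ addOrderOf x6) (h138 : addOrderOf x6 ≠ 138) :
    addOrderOf x6 = 69 := by
  by_contra hne
  obtain ⟨n, hn⟩ : ∃ n, addOrderOf x6 = n := ⟨_, rfl⟩
  rw [hn] at h69 h23 h138 hne
  have hnm : n ∣ m := hn ▸ addOrderOf_dvd' x6
  have hn0 : 0 < n := hn ▸ addOrderOf_pos x6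
  have : NeZero n := ⟨hn0.ne'⟩
  have hordneg : addOrderOf (-x6) = n := by rw [addOrderOf_neg, hn]
  obtain ⟨z6, hz6⟩ := exists_emb x6 hn
  have h23n : 23 ∣ n := (Dvd.intro_left 3 rfl : 23 ∣ 69).trans h69
  have h3n : 3 ∣ n := (Dvd.intro 23 rfl : 3 ∣ 69).trans h69
  have h529 : ¬ 23 * 23 ∣ n := by
    intro h
    apply h23
    have h1 : Nat.Coprime (23 * 23) 3 := by norm_num
    have h2 := Nat.Coprime.mul_dvd_of_dvd_of_dvd h1 h h3n
    have h3 : 69 * 23 = 23 * 23 * 3 := by norm_num
    rw [h3]; exact h2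
  by_cases h4 : n % 4 = 2
  · -- move the order n to n / 2
    obtain ⟨e, he⟩ : ∃ e, n = e * 2 := ⟨n / 2, by omega⟩
    have hoe : Odd e := by
      rw [Nat.odd_iff]; omega
    have he0 : 0 < e := by omega
    have : NeZero e := ⟨he0.ne'⟩
    have hem : e ∣ m := (Dvd.intro 2 he.symm).trans hnm
    have h69e : 69 ∣ e := by
      have h1 : Nat.Coprime 69 2 := by norm_num
      exact h1.dvd_of_dvd_mul_right (he ▸ h69)
    have h23e : 23 ∣ e := (Dvd.intro_left 3 rfl : 23 ∣ 69).trans h69e
    obtain ⟨c1, ν, hν, hνodd, hT1, hz, hy, hrest, -, -⟩ :=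
      S69_two_move m n e hnm he.symm hoe c0 hT
    set y6 := ZMod.unitsMap (Dvd.intro 2 he.symm) z6 with hy6
    have hu : IsUnit (ZMod.castHom h23e (ZMod 23) (y6 : ZMod e)) := y6.isUnit.map _
    have hνs : ∀ y, ν y ≠ 0 → y = y6 ∨ y = -y6 := by
      intro y hne0
      obtain ⟨z, rfl⟩ := ZMod.unitsMap_surjective (Dvd.intro 2 he.symm : e ∣ n) y
      rw [← hν] at hne0
      rcases hsup _ hne0 with h | h | h
      · rw [addOrderOf_emb hnm] at h; exact absurd h h138
      · left
        rw [← hz6] at h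
        rw [Units.ext (emb_injective hnm h)]
      · right
        rw [← hz6, ← emb_neg hnm, ← Units.val_neg] at h
        rw [Units.ext (emb_injective hnm h), TA_unitsMap_neg]
    have h0e : ∀ y : (ZMod e)ˣ, anti c0 (emb e m (y : ZMod e)) = 0 := by
      intro y
      by_contra hc
      have ho := addOrderOf_emb hem y
      rcases hsup _ hc with h | h | h
      · rw [ho] at h
        rw [Nat.odd_iff] at hoe; omega
      · rw [h, hn] at ho; omega
      · rw [h, hordneg] at ho; omega
    have htwo : ZMod.castHom h23e (ZMod 23)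
        ((ZMod.unitOfCoprime 2 (Nat.coprime_two_left.2 hoe) : (ZMod e)ˣ) : ZMod e) = 2 := by
      rw [ZMod.coe_unitOfCoprime, map_natCast]; rfl
    have hval : ∀ y : (ZMod e)ˣ, ν (ZMod.unitOfCoprime 2 (Nat.coprime_two_left.2 hoe) * y) ≠ 0 →
        2 * ZMod.castHom h23e (ZMod 23) (y : ZMod e) =
          ZMod.castHom h23e (ZMod 23) (y6 : ZMod e) ∨
        2 * ZMod.castHom h23e (ZMod 23) (y : ZMod e) =
          - ZMod.castHom h23e (ZMod 23) (y6 : ZMod e) := by
      intro y hc
      rcases hνs _ hc with h | h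
      · left
        have h1 := congrArg (fun u : (ZMod e)ˣ => ZMod.castHom h23e (ZMod 23) (u : ZMod e)) h
        simp only [Units.val_mul, map_mul] at h1
        rwa [htwo] at h1
      · right
        have h1 := congrArg (fun u : (ZMod e)ˣ => ZMod.castHom h23e (ZMod 23) (u : ZMod e)) h
        simp only [Units.val_mul, map_mul, Units.val_neg, map_neg] at h1
        rwa [htwo] at h1
    have h02 : ν (ZMod.unitOfCoprime 2 (Nat.coprime_two_left.2 hoe) * y6) = 0 := by
      by_contra hc
      have h1 := hval y6 hc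
      exact S69_two_ne _ _ 1 hu (Or.inl rfl) h1 (one_mul _).symm
    refine S69_cube m e hem h23e (fun h => h529 (h.trans (Dvd.intro 2 he.symm))) (by omega)
      (anti c1) (anti_odd c1) hT1 ?_ y6 ?_ ?_
    · intro x hx1 hx2
      by_cases hxn : addOrderOf x = n
      · obtain ⟨z, rfl⟩ := exists_emb x hxn
        exact hz z
      · rw [hrest x hxn hx2]
        by_contra hc
        rcases hsup x hc with h | h | h
        · rw [h] at hx1 hx2
          obtain ⟨i, hi⟩ := h69e
          obtain ⟨j, hj⟩ := hx1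
          have hi0 : 0 < i := Nat.pos_of_ne_zero (by rintro rfl; omega)
          have hj0 : 0 < j := Nat.pos_of_ne_zero (by rintro rfl; omega)
          rw [Nat.odd_iff] at hoe
          have h5 : i * j = 2 := by
            have : 69 * (i * j) = 69 * 2 := by rw [← mul_assoc, ← hi]; omega
            exact Nat.eq_of_mul_eq_mul_left (by norm_num) this
          have h6 : i ∣ 2 := ⟨j, h5.symm⟩
          have h7 : i ≤ 2 := Nat.le_of_dvd (by norm_num) h6
          interval_cases i
          · omega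
          · omega
        · rw [h, hn] at hxn; exact hxn rfl
        · rw [h, hordneg] at hxn; exact hxn rfl
    · rw [hy, h0e, h02, zero_add, sub_zero, hy6, ← hν, hz6]
      exact h6
    · intro y hc
      rw [hy, h0e, zero_add] at hc
      by_cases h1 : ν y = 0
      · rw [h1, zero_sub] at hc
        right
        intro w hw
        exact S69_two_ne _ _ w hu hw (hval y (neg_ne_zero.1 hc))
      · rcases hνs y h1 with h2 | h2
        · left; exact h2
        · right
          intro w hw
          rw [h2, Units.val_neg, map_neg]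
          exact S69_neg_ne _ w hu hw
  · have hu : IsUnit (ZMod.castHom h23n (ZMod 23) (z6 : ZMod n)) := z6.isUnit.map _
    refine S69_cube m n hnm h23n h529 h4 (anti c0) (anti_odd c0) hT ?_ z6 ?_ ?_
    · intro x hx1 hx2
      by_contra hc
      rcases hsup x hc with h | h | h
      · rw [h] at hx1 hx2
        obtain ⟨i, hi⟩ := h69
        obtain ⟨j, hj⟩ := hx1
        have hi0 : 0 < i := Nat.pos_of_ne_zero (by rintro rfl; omega)
        have h5 : i * j = 2 := by
          have : 69 * (i * j) = 69 * 2 := by rw [← mul_assoc, ← hi]; omega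
          exact Nat.eq_of_mul_eq_mul_left (by norm_num) this
        have h6 : i ∣ 2 := ⟨j, h5.symm⟩
        have h7 : i ≤ 2 := Nat.le_of_dvd (by norm_num) h6
        interval_cases i
        · omega
        · omega
      · rw [h, hn] at hx2; exact hx2 rfl
      · rw [h, hordneg] at hx2; exact hx2 rfl
    · rw [hz6]; exact h6
    · intro y hc
      rcases hsup _ hc with h | h | h
      · rw [addOrderOf_emb hnm] at h; exact absurd h h138
      · left
        rw [← hz6] at h
        exact Units.ext (emb_injective hnm h)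
      · right
        rw [← hz6, ← emb_neg hnm, ← Units.val_neg] at h
        intro w hw
        rw [Units.ext (emb_injective hnm h), Units.val_neg, map_neg]
        exact S69_neg_ne _ w hu hw

end Pool.Agent.helper88.EF
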