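import Pool.Agent.helper80.EF.S69C

/-! # Project EF, module S69: the last case -/

namespace Pool.Agent.helper88.EF

open Finset Pool.Agent.helper76.LP Pool.Agent.helper88.OF

/-- the functional, for functions without points of order a proper multiple of 69 -/
theorem S69_func (m : ℕ) [NeZero m] (hD : 69 ∣ m) (c : ZMod m → ℤ)
    (hmax : ∀ x, 69 ∣ addOrderOf x → addOrderOf x ≠ 69 → anti c x = 0)
    (s : ZMod m → ℚ) (hs : Ext m 69 23 S69_chi s) :
    (((∑ z : (ZMod 69)ˣ, anti c (emb 69 m (z : ZMod 69)) * S69_chi z : ℤ) : ℚ)) =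
      ∑ x, (anti c x : ℚ) * s x := by
  have h1 : ∑ x, (anti c x : ℚ) * s x =
      ∑ x, (if addOrderOf x = 69 then (anti c x : ℚ) * s x else 0) := by
    refine Finset.sum_congr rfl fun x _ => ?_
    split_ifs with h
    · rfl
    · by_cases h0 : s x = 0
      · rw [h0, mul_zero]
      · rw [hmax x (hs.supp x h0).1 h, Int.cast_zero, zero_mul]
  rw [h1, S69_sum_emb 69 hD]
  push_cast
  refine Finset.sum_congr rfl fun z _ => ?_
  rw [hs.val]

lemma S69_fibre (f : (ZMod 69)ˣ → ℤ) (z : (ZMod 69)ˣ) :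
    Vs S69_d23 f (ZMod.unitsMap S69_d23 z) = f z + f (S69_v * z) := by
  classical
  unfold Vs
  rw [← Finset.sum_filter]
  have h1 : (univ.filter fun w : (ZMod 69)ˣ =>
      ZMod.unitsMap S69_d23 w = ZMod.unitsMap S69_d23 z) = {z, S69_v * z} := by
    ext w
    simp only [Finset.mem_filter, Finset.mem_univ, true_and, Finset.mem_insert,
      Finset.mem_singleton]
    constructor
    · intro h
      have h2 : ZMod.unitsMap S69_d23 (w * z⁻¹) = 1 := by
        rw [map_mul, h, map_inv, mul_inv_cancel]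
      rcases S69_ker _ h2 with h3 | h3
      · left; exact mul_inv_eq_one.1 h3
      · right; exact mul_inv_eq_iff_eq_mul.1 h3
    · rintro (h | h)
      · rw [h]
      · rw [h, map_mul, S69_um23_v, one_mul]
  rw [h1, Finset.sum_pair]
  intro h
  have h2 : (1 : (ZMod 69)ˣ) = S69_v := by
    have : 1 * z = S69_v * z := by rw [one_mul]; exact h
    exact mul_right_cancel this
  exact absurd h2 (by decide)

lemma S69_Vs_neg (f : (ZMod 69)ˣ → ℤ) (hf : ∀ z, f (-z) = - f z) (y : (ZMod 23)ˣ) :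
    Vs S69_d23 f (-y) = - Vs S69_d23 f y := by
  obtain ⟨z, rfl⟩ := ZMod.unitsMap_surjective S69_d23 y
  rw [← TA_unitsMap_neg, S69_fibre, S69_fibre, mul_neg, hf, hf]
  ring

lemma S69_um23_two : ZMod.unitsMap S69_d23 S69_two =
    (ZMod.unitOfCoprime 3 (by norm_num : Nat.Coprime 3 23)) ^ 7 := by
  apply Units.ext; rw [ZMod.unitsMap_def]; decide

/-- invariance of the sums over the fibres -/
theorem S69_Vs_three (f : (ZMod 69)ˣ → ℤ) (hf : ∀ z, f (-z) = - f z)
    (hM : MDv (Gam 23) [23] (fun y => Vs S69_d23 f y -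
      Vs S69_d23 f (ZMod.unitOfCoprime 3 (by norm_num : Nat.Coprime 3 23) * y))) (z : (ZMod 69)ˣ) :
    Vs S69_d23 f (ZMod.unitsMap S69_d23 (S69_two * z)) =
      Vs S69_d23 f (ZMod.unitsMap S69_d23 z) := by
  set t := ZMod.unitOfCoprime 3 (by norm_num : Nat.Coprime 3 23) with ht
  have h1 : ∀ y, Vs S69_d23 f (t * y) = Vs S69_d23 f y := by
    intro y
    have hmem : (-1 : (ZMod 23)ˣ) ∈ Gam 23 23 := by
      rw [GA_mem (d := 23) (p := 23) (e := 1) rfl (by norm_num)]
      exact Subsingleton.elim _ _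
    have h2 : (Vs S69_d23 f (-1 * y) - Vs S69_d23 f (t * (-1 * y))) -
        (Vs S69_d23 f y - Vs S69_d23 f (t * y)) = 0 := hM (-1) hmem y
    rw [neg_one_mul, mul_neg, S69_Vs_neg f hf, S69_Vs_neg f hf] at h2
    linarith
  have h3 : ∀ (k : ℕ) (y : (ZMod 23)ˣ), Vs S69_d23 f (t ^ k * y) = Vs S69_d23 f y := by
    intro k
    induction k with
    | zero => intro y; rw [pow_zero, one_mul]
    | succ k ih => intro y; rw [pow_succ, mul_assoc, ih, h1]
  rw [map_mul, S69_um23_two]
  exact h3 7 _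

set_option maxRecDepth 4000 in
/-- the last case -/
theorem S69_final (m : ℕ) [NeZero m] (h138 : 138 ∣ m) (c0 : ZMod m → ℤ) (hT : TateF (anti c0))
    (x6 : ZMod m) (hx6 : addOrderOf x6 = 69) (h6 : |anti c0 x6| = 1)
    (hsup : ∀ x, anti c0 x ≠ 0 → addOrderOf x = 138 ∨ x = x6 ∨ x = -x6)
    (hM : ∑ x, (if addOrderOf x = 138 then |anti c0 x| else 0) = 10)
    (s : ZMod m → ℚ) (hs : Ext m 69 23 S69_chi s) (c' : ℤ) (hc' : c' = 1 ∨ c' = -1)
    (hc : ∑ x, (anti c0 x : ℚ) * s x = 22 * c')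
    (hcond : ∀ c : ZMod m → ℤ, TateF (anti c) → (∀ x, addOrderOf x ≠ 69 → anti c x = 0) →
      MDv (Gam 23) [23] (fun y => Vs S69_d23 (fun z => anti c (emb 69 m (z : ZMod 69))) y -
        Vs S69_d23 (fun z => anti c (emb 69 m (z : ZMod 69)))
          (ZMod.unitOfCoprime 3 (by norm_num : Nat.Coprime 3 23) * y))) : False := by
  classical
  have hD : 69 ∣ m := (Dvd.intro 2 rfl : 69 ∣ 138).trans h138
  obtain ⟨c1, ν, hν, hνodd, hT1, hz, hy, hrest, hνsum, hfun⟩ :=
    S69_two_move m 138 69 h138 rfl ⟨34, rfl⟩ c0 hT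
  have hordneg : addOrderOf (-x6) = 69 := by rw [addOrderOf_neg, hx6]
  have hc2 : c' * c' = 1 := by rcases hc' with h | h <;> rw [h] <;> norm_num
  -- support of the new function
  have hmax1 : ∀ x, addOrderOf x ≠ 69 → anti c1 x = 0 := by
    intro x hx
    by_cases hx' : addOrderOf x = 138
    · obtain ⟨z, rfl⟩ := exists_emb x hx'
      exact hz z
    · rw [hrest x hx' hx]
      by_contra hne
      rcases hsup x hne with h | h | h
      · exact hx' h
      · rw [h] at hx; exact hx hx6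
      · rw [h] at hx; exact hx hordneg
  have h2m : 2 ∣ m := (Dvd.intro 69 rfl : 2 ∣ 138).trans h138
  have hsum : ∑ x, (anti c1 x : ℚ) * s x = 22 * c' := by
    rw [hfun s (fun x => hs.dist 2 Nat.prime_two h2m (by norm_num) x), hc]
  obtain ⟨f, hf⟩ : ∃ f : (ZMod 69)ˣ → ℤ, f = fun z : (ZMod 69)ˣ =>
      anti c1 (emb 69 m (z : ZMod 69)) := ⟨_, rfl⟩
  have hfodd : ∀ z, f (-z) = - f z := by
    intro z
    rw [hf]
    simp only
    rw [Units.val_neg, emb_neg hD, anti_odd]
  have hfs : ∑ z, f z * S69_chi z = 22 * c' := by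
    have h1 := S69_func m hD c1 (fun x _ h => hmax1 x h) s hs
    rw [hsum] at h1
    rw [hf]
    exact_mod_cast h1
  have hM1 : MDv (Gam 69) [23, 3] f := by
    rw [hf]
    refine mdiff m (anti c1) (anti_odd c1) hT1 69 hD (fun x _ h => hmax1 x h) [23, 3] ?_
    intro p hp
    rw [S69_primeFactors] at hp
    simp only [Finset.mem_insert, Finset.mem_singleton] at hp
    rcases hp with h | h <;> rw [h] <;> simp
  have hdel := S69_delta f hM1
  have hcc : f 1 - f S69_v = c' := by
    have h1 := S69_sum_chi f _ hdel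
    rw [hfs] at h1
    linarith
  rw [hcc] at hdel
  set two : (ZMod 69)ˣ := ZMod.unitOfCoprime 2 (Nat.coprime_two_left.2 (⟨34, rfl⟩ : Odd 69))
    with htwo
  have htwo' : two = S69_two := by
    apply Units.ext
    rw [htwo, ZMod.coe_unitOfCoprime]; rfl
  rw [htwo'] at hy
  have hfy : ∀ y, f y = anti c0 (emb 69 m (y : ZMod 69)) + (ν y - ν (S69_two * y)) := by
    rw [hf]; exact hy
  -- the total
  obtain ⟨T, hTd⟩ : ∃ T : (ZMod 69)ˣ → ℤ, ∀ y, T y =
      |anti c0 (emb 69 m (y : ZMod 69))| + |ν y| + |ν (S69_two * y)| := ⟨_, fun _ => rfl⟩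
  have hT0 : ∀ y, 0 ≤ T y := fun y => by
    rw [hTd]; exact add_nonneg (add_nonneg (abs_nonneg _) (abs_nonneg _)) (abs_nonneg _)
  have hfT : ∀ y, |f y| ≤ T y := by
    intro y
    rw [hfy]
    have h1 := abs_add_le (anti c0 (emb 69 m (y : ZMod 69))) (ν y - ν (S69_two * y))
    have h2 := abs_sub (ν y) (ν (S69_two * y))
    rw [hTd]
    linarith
  have hsT : ∑ y, T y ≤ 22 := by
    have e1 : ∑ y : (ZMod 69)ˣ, |anti c0 (emb 69 m (y : ZMod 69))| ≤ 2 := by
      rw [← TA_sum_emb 69 hD (fun x => |anti c0 x|)]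
      have h1 : ∀ x : ZMod m, (if addOrderOf x = 69 then |anti c0 x| else 0) ≤
          (if x = x6 then (1 : ℤ) else 0) + (if x = -x6 then 1 else 0) := by
        intro x
        split_ifs with h2 h3 h4 h4 h3 h4 h4
        · rw [h3, h6]; norm_num
        · rw [h3, h6]; norm_num
        · rw [h4, anti_odd, abs_neg, h6]; norm_num
        · by_contra hne
          have h5 : anti c0 x ≠ 0 := by
            intro h0; rw [h0] at hne; simp at hne
          rcases hsup x h5 with h | h | h
          · omega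
          · exact h3 h
          · exact h4 h
        · norm_num
        · norm_num
        · norm_num
        · norm_num
      refine (Finset.sum_le_sum fun x _ => h1 x).trans ?_
      rw [Finset.sum_add_distrib, Finset.sum_ite_eq' univ x6, Finset.sum_ite_eq' univ (-x6),
        if_pos (Finset.mem_univ _), if_pos (Finset.mem_univ _)]
      norm_num
    have e2 : ∑ y, |ν y| = 10 := by
      rw [hνsum, ← TA_sum_emb 138 h138 (fun x => |anti c0 x|)]
      exact hM
    have e3 : ∑ y, |ν (S69_two * y)| = 10 := by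
      rw [← e2]
      exact Equiv.sum_comp (Equiv.mulLeft S69_two) (fun y => |ν y|)
    rw [Finset.sum_congr rfl fun y _ => hTd y]
    rw [Finset.sum_add_distrib, Finset.sum_add_distrib, e2, e3]
    linarith
  have hle : ∀ y, c' * (f y * S69_chi y) ≤ T y := by
    intro y
    refine le_trans ?_ (hfT y)
    refine (le_abs_self _).trans ?_
    rw [abs_mul, abs_mul, S69_chi_abs, mul_one]
    rcases hc' with h | h <;> rw [h] <;> norm_num
  have heq : ∀ y, T y = c' * (f y * S69_chi y) := by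
    have h1 : ∑ y, (T y - c' * (f y * S69_chi y)) ≤ 0 := by
      rw [Finset.sum_sub_distrib, ← Finset.mul_sum, hfs]
      have : c' * (22 * c') = 22 := by
        calc c' * (22 * c') = 22 * (c' * c') := by ring
          _ = 22 := by rw [hc2, mul_one]
      rw [this]; linarith
    have h2 : ∀ y ∈ (univ : Finset (ZMod 69)ˣ), 0 ≤ T y - c' * (f y * S69_chi y) :=
      fun y _ => sub_nonneg.2 (hle y)
    intro y
    have h3 := (Finset.sum_eq_zero_iff_of_nonneg h2).1
      (le_antisymm h1 (Finset.sum_nonneg h2)) y (Finset.mem_univ _)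
    exact sub_eq_zero.1 h3
  have hpair : ∀ z, T z + T (S69_v * z) = 1 := by
    intro z
    have e1 := heq z
    have e2 := heq (S69_v * z)
    rw [S69_chi_v] at e2
    have h1 := hdel z
    have h2 := S69_chi_sq z
    generalize S69_chi z = k at e1 e2 h1 h2
    generalize f z = a at e1 h1
    generalize f (S69_v * z) = b at e2 h1
    generalize T z = t1 at e1
    generalize T (S69_v * z) = t2 at e2
    rw [e1, e2]
    have h3 : c' * (a * k) + c' * (b * -k) = c' * k * (a - b) := by ring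
    rw [h3, h1]
    have h4 : c' * k * (c' * k) = (c' * c') * (k * k) := by ring
    rw [h4, hc2, h2, one_mul]
  -- a point of order 138
  obtain ⟨x0, hx0, hx0'⟩ : ∃ x : ZMod m, addOrderOf x = 138 ∧ 0 < anti c0 x := by
    have h1 : ∑ x, (if addOrderOf x = 138 then |anti c0 x| else 0) ≠ 0 := by rw [hM]; norm_num
    obtain ⟨x, -, hx⟩ := Finset.exists_ne_zero_of_sum_ne_zero h1
    by_cases h2 : addOrderOf x = 138
    · rw [if_pos h2] at hx
      rcases lt_trichotomy (anti c0 x) 0 with h3 | h3 | h3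
      · refine ⟨-x, by rw [addOrderOf_neg, h2], ?_⟩
        rw [anti_odd]; linarith
      · rw [h3] at hx; simp at hx
      · exact ⟨x, h2, h3⟩
    · rw [if_neg h2] at hx; exact absurd rfl hx
  obtain ⟨z0, rfl⟩ := exists_emb x0 hx0
  rw [hν] at hx0'
  set w := ZMod.unitsMap (Dvd.intro 2 rfl : 69 ∣ 138) z0 with hw
  -- the two values
  have hνw : 1 ≤ |ν w| := Int.one_le_abs hx0'.ne'
  have hTw : T w = |anti c0 (emb 69 m (w : ZMod 69))| + |ν w| + |ν (S69_two * w)| := hTd w
  have a1 := abs_nonneg (anti c0 (emb 69 m (w : ZMod 69)))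
  have a2 := abs_nonneg (ν (S69_two * w))
  have hp1 := hpair w
  have hp1' := hT0 (S69_v * w)
  have b1 : |anti c0 (emb 69 m (w : ZMod 69))| = 0 := by linarith
  have b2 : |ν (S69_two * w)| = 0 := by linarith
  have b3 : |ν w| = 1 := by linarith
  have b4 : T (S69_v * w) = 0 := by linarith
  have hfw : f w = 1 := by
    rw [hfy, abs_eq_zero.1 b1, abs_eq_zero.1 b2]
    rw [abs_of_pos hx0'] at b3
    linarith
  have hfvw : f (S69_v * w) = 0 := by
    have := hfT (S69_v * w)
    rw [b4] at this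
    exact abs_eq_zero.1 (le_antisymm this (abs_nonneg _))
  set w2 := S69_two⁻¹ * w with hw2
  have hww : S69_two * w2 = w := by rw [hw2, mul_inv_cancel_left]
  have hTw2 : T w2 = |anti c0 (emb 69 m (w2 : ZMod 69))| + |ν w2| + |ν (S69_two * w2)| := hTd w2
  rw [hww] at hTw2
  have a3 := abs_nonneg (anti c0 (emb 69 m (w2 : ZMod 69)))
  have a4 := abs_nonneg (ν w2)
  have hp2 := hpair w2
  have hp2' := hT0 (S69_v * w2)
  have b5 : |anti c0 (emb 69 m (w2 : ZMod 69))| = 0 := by linarith
  have b6 : |ν w2| = 0 := by linarith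
  have b7 : T (S69_v * w2) = 0 := by linarith
  have hfw2 : f w2 = -1 := by
    rw [hfy, abs_eq_zero.1 b5, abs_eq_zero.1 b6, hww]
    rw [abs_of_pos hx0'] at b3
    linarith
  have hfvw2 : f (S69_v * w2) = 0 := by
    have := hfT (S69_v * w2)
    rw [b7] at this
    exact abs_eq_zero.1 (le_antisymm this (abs_nonneg _))
  have h1 := S69_Vs_three f hfodd (by rw [hf]; exact hcond c1 hT1 hmax1) w2
  rw [hww, S69_fibre, S69_fibre, hfw, hfvw, hfw2, hfvw2] at h1
  norm_num at h1

end Pool.Agent.helper88.EF
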